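import Pool.Agent.Helper56.Un.E8Stmts

set_option autoImplicit false

/-!
# E_KER: few points of `E₈` are close to a given point
-/

namespace Pool.Agent.Helper19.Un

/-! ### the finite quadratic space -/

/-- the additive character of `ℤ/2` -/
def eker_sg (x : ZMod 2) : ℤ := if x = 0 then 1 else -1

theorem eker_sg_add : ∀ x y : ZMod 2, eker_sg (x + y) = eker_sg x * eker_sg y := by decide

abbrev EkV := Fin 4 → ZMod 2

def eker_dot (c d : EkV) : ZMod 2 := c 0 * d 0 + c 1 * d 1 + c 2 * d 2 + c 3 * d 3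

theorem eker_L1 : ∀ d : EkV, ∑ c : EkV, eker_sg (eker_dot c d) = if d = 0 then 16 else 0 := by
  decide +kernel

theorem eker_dot_comm (c d : EkV) : eker_dot c d = eker_dot d c := by
  unfold eker_dot; ring

theorem eker_dot_add (c c' d : EkV) : eker_dot (c + c') d = eker_dot c d + eker_dot c' d := by
  unfold eker_dot
  simp only [Pi.add_apply]
  ring

theorem eker_dot_add' (c d d' : EkV) : eker_dot c (d + d') = eker_dot c d + eker_dot c d' := by
  rw [eker_dot_comm, eker_dot_add, eker_dot_comm d, eker_dot_comm d']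

/-- the quadratic form -/
def eker_q (u : EkV × EkV) : ZMod 2 := eker_dot u.1 u.2

/-- the bilinear form -/
def eker_b (u w : EkV × EkV) : ZMod 2 := eker_dot u.1 w.2 + eker_dot w.1 u.2

theorem eker_q_add (u w : EkV × EkV) :
    eker_q (u + w) = eker_q u + eker_q w + eker_b u w := by
  unfold eker_q eker_b
  rw [Prod.fst_add, Prod.snd_add, eker_dot_add, eker_dot_add', eker_dot_add']
  ring

theorem eker_b_add (u v w : EkV × EkV) : eker_b (u + v) w = eker_b u w + eker_b v w := by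
  unfold eker_b
  rw [Prod.fst_add, Prod.snd_add, eker_dot_add, eker_dot_add']
  ring

theorem eker_sub (u v : EkV × EkV) : u - v = u + v := by
  have h : ∀ x y : ZMod 2, x - y = x + y := by decide
  refine Prod.ext ?_ ?_
  · funext i; exact h _ _
  · funext i; exact h _ _

theorem eker_orth (x : EkV × EkV) :
    ∑ w : EkV × EkV, eker_sg (eker_b x w) = if x = 0 then 256 else 0 := by
  unfold eker_b
  rw [Fintype.sum_prod_type]
  have h1 : ∀ c d : EkV, eker_sg (eker_dot x.1 d + eker_dot c x.2) =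
      eker_sg (eker_dot d x.1) * eker_sg (eker_dot c x.2) := by
    intro c d
    rw [eker_sg_add, eker_dot_comm x.1 d]
  simp only [h1]
  simp only [← Finset.sum_mul]
  rw [eker_L1, ← Finset.mul_sum, eker_L1]
  by_cases h2 : x.1 = 0
  · by_cases h3 : x.2 = 0
    · have : x = 0 := Prod.ext h2 h3
      rw [if_pos h2, if_pos h3, if_pos this]
      norm_num
    · have : x ≠ 0 := fun h => h3 (by rw [h]; rfl)
      rw [if_pos h2, if_neg h3, if_neg this]
      norm_num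
  · have : x ≠ 0 := fun h => h2 (by rw [h]; rfl)
    rw [if_neg h2, if_neg this]
    norm_num

theorem eker_gauss0 : ∑ w : EkV × EkV, eker_sg (eker_q w) = 16 := by
  rw [Fintype.sum_prod_type_right]
  unfold eker_q
  simp only [eker_L1]
  rw [Finset.sum_ite_eq' Finset.univ (0 : EkV) (fun _ => (16 : ℤ))]
  simp

theorem eker_gauss (x : EkV × EkV) :
    ∑ w : EkV × EkV, eker_sg (eker_q w) * eker_sg (eker_b x w) = 16 * eker_sg (eker_q x) := by
  have h1 : ∀ w : EkV × EkV, eker_sg (eker_q w) * eker_sg (eker_b x w) =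
      eker_sg (eker_q x) * eker_sg (eker_q (x + w)) := by
    intro w
    rw [eker_q_add, eker_sg_add, eker_sg_add]
    have h2 : ∀ y : ZMod 2, eker_sg y * eker_sg y = 1 := by decide
    linear_combination (-(eker_sg (eker_q w) * eker_sg (eker_b x w))) * h2 (eker_q x)
  simp only [h1]
  rw [← Finset.mul_sum]
  have h3 : ∑ w : EkV × EkV, eker_sg (eker_q (x + w)) = ∑ w : EkV × EkV, eker_sg (eker_q w) :=
    Fintype.sum_equiv (Equiv.addLeft x) _ _ (fun w => rfl)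
  rw [h3, eker_gauss0]
  ring

/-- the lower bound for the sum of signs -/
theorem eker_signs (T : Finset (EkV × EkV)) :
    (T.card : ℤ) ^ 2 - 128 * T.card ≤ 8 * ∑ x ∈ T, ∑ y ∈ T, eker_sg (eker_q (x - y)) := by
  set c : EkV × EkV → ℤ := fun w => ∑ x ∈ T, eker_sg (eker_b x w) with hc
  have hsq : ∀ w, c w ^ 2 = ∑ x ∈ T, ∑ y ∈ T, eker_sg (eker_b (x - y) w) := by
    intro w
    rw [hc, pow_two, Finset.sum_mul_sum]
    refine Finset.sum_congr rfl fun x _ => Finset.sum_congr rfl fun y _ => ?_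
    rw [eker_sub, eker_b_add, eker_sg_add]
  have h1 : ∑ w, c w ^ 2 = 256 * (T.card : ℤ) := by
    simp only [hsq]
    rw [Finset.sum_comm]
    have : ∀ x ∈ T, ∑ w : EkV × EkV, ∑ y ∈ T, eker_sg (eker_b (x - y) w) = 256 := by
      intro x hx
      rw [Finset.sum_comm]
      simp only [eker_orth]
      have h0 : ∀ y, (if x - y = 0 then (256 : ℤ) else 0) = if x = y then 256 else 0 := by
        intro y
        by_cases h : x = y
        · rw [if_pos h, if_pos (sub_eq_zero.mpr h)]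
        · rw [if_neg h, if_neg (fun h' => h (sub_eq_zero.mp h'))]
      simp only [h0]
      rw [Finset.sum_ite_eq, if_pos hx]
    rw [Finset.sum_congr rfl this, Finset.sum_const, nsmul_eq_mul]
    ring
  have h2 : ∑ w, eker_sg (eker_q w) * c w ^ 2 =
      16 * ∑ x ∈ T, ∑ y ∈ T, eker_sg (eker_q (x - y)) := by
    simp only [hsq, Finset.mul_sum]
    rw [Finset.sum_comm]
    refine Finset.sum_congr rfl fun x _ => ?_
    rw [Finset.sum_comm]
    refine Finset.sum_congr rfl fun y _ => ?_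
    rw [eker_gauss]
  have h3 : 2 * (T.card : ℤ) ^ 2 ≤ ∑ w, (eker_sg (eker_q w) * c w ^ 2 + c w ^ 2) := by
    have h4 : ∀ w ∈ (Finset.univ : Finset (EkV × EkV)),
        0 ≤ eker_sg (eker_q w) * c w ^ 2 + c w ^ 2 := by
      intro w _
      have h5 : ∀ y : ZMod 2, -1 ≤ eker_sg y := by decide
      have := h5 (eker_q w)
      nlinarith [sq_nonneg (c w)]
    have h6 := Finset.single_le_sum h4 (Finset.mem_univ (0 : EkV × EkV))
    refine le_trans (le_of_eq ?_) h6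
    have hq0 : eker_sg (eker_q (0 : EkV × EkV)) = 1 := by decide
    have hc0 : c 0 = T.card := by
      rw [hc]
      have : ∀ x : EkV × EkV, eker_sg (eker_b x 0) = 1 := by
        intro x
        have : eker_b x 0 = 0 := by
          unfold eker_b eker_dot
          simp
        rw [this]; decide
      simp only [this]
      rw [Finset.sum_const, nsmul_eq_mul, mul_one]
    rw [hq0, hc0]; ring
  rw [Finset.sum_add_distrib, h1, h2] at h3
  linarith

/-! ### coordinates modulo `2 E₈` -/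

def ekC (A : Fin 8 → ℤ) : Fin 4 → ℤ :=
  ![(-3 * A 0 + A 1 + A 2 + A 3 + A 4 + A 5 + A 6 + A 7) / 4, (A 0 + A 1 + A 2 + A 4) / 2,
    (A 0 + A 1 + A 5 + A 7) / 2, (A 0 + A 3 + A 4 + A 5) / 2]

def ekD (A : Fin 8 → ℤ) : Fin 4 → ℤ :=
  ![A 0, (A 0 + A 1 + A 2 + A 3) / 2, (A 0 + A 1 + A 5 + A 6) / 2, (A 0 + A 2 + A 6 + A 7) / 2]

def ekU (A : Fin 8 → ℤ) : EkV × EkV := (fun i => (ekC A i : ZMod 2), fun i => (ekD A i : ZMod 2))

theorem eker_GA_iff (A : Fin 8 → ℤ) : GA A ↔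
    (((A 0 % 2 = 0 ∧ A 1 % 2 = 0 ∧ A 2 % 2 = 0 ∧ A 3 % 2 = 0 ∧ A 4 % 2 = 0 ∧ A 5 % 2 = 0 ∧
      A 6 % 2 = 0 ∧ A 7 % 2 = 0) ∨ (A 0 % 2 = 1 ∧ A 1 % 2 = 1 ∧ A 2 % 2 = 1 ∧ A 3 % 2 = 1 ∧
      A 4 % 2 = 1 ∧ A 5 % 2 = 1 ∧ A 6 % 2 = 1 ∧ A 7 % 2 = 1)) ∧
      (A 0 + A 1 + A 2 + A 3 + A 4 + A 5 + A 6 + A 7) % 4 = 0) := by
  unfold GA
  rw [Fin.sum_univ_eight]
  constructor
  · rintro ⟨h | h, h2⟩
    · exact ⟨Or.inl ⟨h 0, h 1, h 2, h 3, h 4, h 5, h 6, h 7⟩, h2⟩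
    · exact ⟨Or.inr ⟨h 0, h 1, h 2, h 3, h 4, h 5, h 6, h 7⟩, h2⟩
  · rintro ⟨h | h, h2⟩
    · refine ⟨Or.inl fun i => ?_, h2⟩
      obtain ⟨h0, h1, h2, h3, h4, h5, h6, h7⟩ := h
      fin_cases i <;> assumption
    · refine ⟨Or.inr fun i => ?_, h2⟩
      obtain ⟨h0, h1, h2, h3, h4, h5, h6, h7⟩ := h
      fin_cases i <;> assumption

theorem eker_o1 {a b : ℤ} (h : a % 2 = 0) (h' : b % 2 = 0) : (a - b) % 2 = 0 := by omega
theorem eker_o2 {a b : ℤ} (h : a % 2 = 0) (h' : b % 2 = 1) : (a - b) % 2 = 1 := by omega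
theorem eker_o3 {a b : ℤ} (h : a % 2 = 1) (h' : b % 2 = 0) : (a - b) % 2 = 1 := by omega
theorem eker_o4 {a b : ℤ} (h : a % 2 = 1) (h' : b % 2 = 1) : (a - b) % 2 = 0 := by omega
theorem eker_o5 {a b : ℤ} (h : a % 4 = 0) (h' : b % 4 = 0) : (a - b) % 4 = 0 := by omega
/-- division of a difference by two -/
theorem eker_o6 {a b c : ℤ} (hc : c = a - b) (h' : b % 2 = 0) : c / 2 = a / 2 - b / 2 := by
  omega
/-- division of a difference by four -/
theorem eker_o7 {a b c : ℤ} (hc : c = a - b) (h' : b % 4 = 0) : c / 4 = a / 4 - b / 4 := by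
  omega
/-- four integers of the same parity -/
theorem eker_o8 {a b c d : ℤ} {r : ℤ} (ha : a % 2 = r) (hb : b % 2 = r) (hc : c % 2 = r)
    (hd : d % 2 = r) : (a + b + c + d) % 2 = 0 := by omega
theorem eker_o9 {d b : ℤ} (h : d = 2 * b) (hb : b % 2 = 0) : d % 4 = 0 := by omega
theorem eker_o9' {d b : ℤ} (h : d = 2 * b) (hb : b % 2 = 1) : d % 4 = 2 := by omega
theorem eker_o10 {a b r : ℤ} (h : (a - b) % 2 = 0) (ha : a % 2 = r) : b % 2 = r := by omega

theorem eker_GA_sub {A B : Fin 8 → ℤ} (hA : GA A) (hB : GA B) : GA (A - B) := by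
  obtain ⟨hp, hs⟩ := hA
  obtain ⟨hp', hs'⟩ := hB
  refine ⟨?_, ?_⟩
  · rcases hp with hp | hp <;> rcases hp' with hp' | hp'
    · exact Or.inl fun i => eker_o1 (hp i) (hp' i)
    · exact Or.inr fun i => eker_o2 (hp i) (hp' i)
    · exact Or.inr fun i => eker_o3 (hp i) (hp' i)
    · exact Or.inl fun i => eker_o4 (hp i) (hp' i)
  · have h1 : ∑ i, (A - B) i = ∑ i, A i - ∑ i, B i := by
      rw [← Finset.sum_sub_distrib]; rfl
    rw [h1]
    exact eker_o5 hs hs'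

theorem eker_U_sub {A B : Fin 8 → ℤ} (hA : GA A) (hB : GA B) : ekU (A - B) = ekU A - ekU B := by
  have hpar : ∀ i j k l : Fin 8, (B i + B j + B k + B l) % 2 = 0 := by
    intro i j k l
    rcases hB.1 with h | h
    · exact eker_o8 (h i) (h j) (h k) (h l)
    · exact eker_o8 (h i) (h j) (h k) (h l)
  have hsum : (-3 * B 0 + B 1 + B 2 + B 3 + B 4 + B 5 + B 6 + B 7) % 4 = 0 := by
    have h := hB.2
    rw [Fin.sum_univ_eight] at h
    clear hpar hA hB
    omega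
  have hC : ∀ i, ekC (A - B) i = ekC A i - ekC B i := by
    intro i
    fin_cases i
    · show (-3 * (A 0 - B 0) + (A 1 - B 1) + (A 2 - B 2) + (A 3 - B 3) + (A 4 - B 4) +
        (A 5 - B 5) + (A 6 - B 6) + (A 7 - B 7)) / 4 =
        (-3 * A 0 + A 1 + A 2 + A 3 + A 4 + A 5 + A 6 + A 7) / 4 -
        (-3 * B 0 + B 1 + B 2 + B 3 + B 4 + B 5 + B 6 + B 7) / 4
      exact eker_o7 (by ring) hsum
    · show ((A 0 - B 0) + (A 1 - B 1) + (A 2 - B 2) + (A 4 - B 4)) / 2 =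
        (A 0 + A 1 + A 2 + A 4) / 2 - (B 0 + B 1 + B 2 + B 4) / 2
      exact eker_o6 (by ring) (hpar 0 1 2 4)
    · show ((A 0 - B 0) + (A 1 - B 1) + (A 5 - B 5) + (A 7 - B 7)) / 2 =
        (A 0 + A 1 + A 5 + A 7) / 2 - (B 0 + B 1 + B 5 + B 7) / 2
      exact eker_o6 (by ring) (hpar 0 1 5 7)
    · show ((A 0 - B 0) + (A 3 - B 3) + (A 4 - B 4) + (A 5 - B 5)) / 2 =
        (A 0 + A 3 + A 4 + A 5) / 2 - (B 0 + B 3 + B 4 + B 5) / 2
      exact eker_o6 (by ring) (hpar 0 3 4 5)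
  have hD : ∀ i, ekD (A - B) i = ekD A i - ekD B i := by
    intro i
    fin_cases i
    · rfl
    · show ((A 0 - B 0) + (A 1 - B 1) + (A 2 - B 2) + (A 3 - B 3)) / 2 =
        (A 0 + A 1 + A 2 + A 3) / 2 - (B 0 + B 1 + B 2 + B 3) / 2
      exact eker_o6 (by ring) (hpar 0 1 2 3)
    · show ((A 0 - B 0) + (A 1 - B 1) + (A 5 - B 5) + (A 6 - B 6)) / 2 =
        (A 0 + A 1 + A 5 + A 6) / 2 - (B 0 + B 1 + B 5 + B 6) / 2
      exact eker_o6 (by ring) (hpar 0 1 5 6)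
    · show ((A 0 - B 0) + (A 2 - B 2) + (A 6 - B 6) + (A 7 - B 7)) / 2 =
        (A 0 + A 2 + A 6 + A 7) / 2 - (B 0 + B 2 + B 6 + B 7) / 2
      exact eker_o6 (by ring) (hpar 0 2 6 7)
  unfold ekU
  refine Prod.ext ?_ ?_
  · funext i
    show ((ekC (A - B) i : ℤ) : ZMod 2) = (ekC A i : ZMod 2) - (ekC B i : ZMod 2)
    rw [hC]; push_cast; ring
  · funext i
    show ((ekD (A - B) i : ℤ) : ZMod 2) = (ekD A i : ZMod 2) - (ekD B i : ZMod 2)
    rw [hD]; push_cast; ring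

theorem eker_bits : ∀ b : Fin 8 → Bool,
    ((b 0).toNat + (b 1).toNat + (b 2).toNat + (b 3).toNat + (b 4).toNat + (b 5).toNat +
      (b 6).toNat + (b 7).toNat) % 2 = 0 →
    (((b 0).toNat + (b 1).toNat + (b 2).toNat + (b 3).toNat + (b 4).toNat + (b 5).toNat +
      (b 6).toNat + (b 7).toNat) / 2 +
      (((b 0).toNat + (b 1).toNat + (b 2).toNat + (b 4).toNat) *
        ((b 0).toNat + (b 1).toNat + (b 2).toNat + (b 3).toNat) +
      ((b 0).toNat + (b 1).toNat + (b 5).toNat + (b 7).toNat) *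
        ((b 0).toNat + (b 1).toNat + (b 5).toNat + (b 6).toNat) +
      ((b 0).toNat + (b 3).toNat + (b 4).toNat + (b 5).toNat) *
        ((b 0).toNat + (b 2).toNat + (b 6).toNat + (b 7).toNat))) % 2 = 0 := by
  decide +kernel

theorem eker_dec {D : Fin 8 → ℤ} (h : GA D) : ∃ (e t : ℤ) (k : Fin 8 → ℤ) (b : Fin 8 → Bool),
    (e = 0 ∨ e = 1) ∧ (∀ j, D j = 4 * k j + 2 * ((b j).toNat : ℤ) + e) ∧
    ((b 0).toNat : ℤ) + (b 1).toNat + (b 2).toNat + (b 3).toNat + (b 4).toNat + (b 5).toNat +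
      (b 6).toNat + (b 7).toNat = 2 * t ∧
    (t + (((b 0).toNat + (b 1).toNat + (b 2).toNat + (b 4).toNat) *
        ((b 0).toNat + (b 1).toNat + (b 2).toNat + (b 3).toNat) +
      ((b 0).toNat + (b 1).toNat + (b 5).toNat + (b 7).toNat) *
        ((b 0).toNat + (b 1).toNat + (b 5).toNat + (b 6).toNat) +
      ((b 0).toNat + (b 3).toNat + (b 4).toNat + (b 5).toNat) *
        ((b 0).toNat + (b 2).toNat + (b 6).toNat + (b 7).toNat))) % 2 = 0 := by
  obtain ⟨e, he, hpar⟩ : ∃ e : ℤ, (e = 0 ∨ e = 1) ∧ ∀ j, D j % 2 = e := by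
    rcases h.1 with h1 | h1
    · exact ⟨0, Or.inl rfl, h1⟩
    · exact ⟨1, Or.inr rfl, h1⟩
  set b : Fin 8 → Bool := fun j => decide ((D j - e) / 2 % 2 = 1) with hb
  have hbit : ∀ j, ((b j).toNat : ℤ) = (D j - e) / 2 % 2 := by
    intro j
    rw [hb]
    by_cases hj : (D j - e) / 2 % 2 = 1
    · simp [hj]
    · have : (D j - e) / 2 % 2 = 0 := by omega
      simp [this]
  have hdec : ∀ j, D j = 4 * ((D j - e) / 4) + 2 * ((b j).toNat : ℤ) + e := by
    intro j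
    rw [hbit]
    have := hpar j
    omega
  have hsum := h.2
  rw [Fin.sum_univ_eight] at hsum
  have h0 := hdec 0
  have h1 := hdec 1
  have h2 := hdec 2
  have h3 := hdec 3
  have h4 := hdec 4
  have h5 := hdec 5
  have h6 := hdec 6
  have h7 := hdec 7
  have heven : (((b 0).toNat : ℤ) + (b 1).toNat + (b 2).toNat + (b 3).toNat + (b 4).toNat +
      (b 5).toNat + (b 6).toNat + (b 7).toNat) % 2 = 0 := by
    omega
  have heven' : ((b 0).toNat + (b 1).toNat + (b 2).toNat + (b 3).toNat + (b 4).toNat +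
      (b 5).toNat + (b 6).toNat + (b 7).toNat) % 2 = 0 := by
    exact_mod_cast heven
  have hbits := eker_bits b heven'
  refine ⟨e, (((b 0).toNat + (b 1).toNat + (b 2).toNat + (b 3).toNat + (b 4).toNat +
      (b 5).toNat + (b 6).toNat + (b 7).toNat : ℕ) / 2 : ℕ), fun j => (D j - e) / 4, b, he, hdec,
      ?_, ?_⟩
  · push_cast
    omega
  · exact_mod_cast hbits

/-- the quadratic form: `ΣD²/8` modulo two -/
theorem eker_form {D : Fin 8 → ℤ} (h : GA D) : ∃ Q : ℤ, ∑ j, D j ^ 2 = 8 * Q ∧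
    (Q : ZMod 2) = eker_q (ekU D) := by
  obtain ⟨e, t, k, b, he, hD, ht, hbits⟩ := eker_dec h
  have hsq : ∀ j, ((b j).toNat : ℤ) ^ 2 = (b j).toNat := by
    intro j
    cases b j <;> simp
  have he2 : e ^ 2 = e := by rcases he with rfl | rfl <;> norm_num
  set K : ℤ := k 0 + k 1 + k 2 + k 3 + k 4 + k 5 + k 6 + k 7 with hK
  set R : ℤ := ∑ j, (k j ^ 2 + k j * ((b j).toNat : ℤ)) with hR
  refine ⟨2 * R + e * K + t + e * t + e, ?_, ?_⟩
  · have h1 : ∀ j, D j ^ 2 = 16 * (k j ^ 2 + k j * ((b j).toNat : ℤ)) + 8 * (e * k j) +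
        4 * ((b j).toNat : ℤ) + 4 * e * ((b j).toNat : ℤ) + e := by
      intro j
      rw [hD j]
      linear_combination 4 * hsq j + he2
    rw [Finset.sum_congr rfl (fun j _ => h1 j)]
    rw [hR, hK]
    simp only [Fin.sum_univ_eight]
    linear_combination 4 * (1 + e) * ht
  · have hc0 : ekC D 0 = K + t + 2 * e - D 0 := by
      show (-3 * D 0 + D 1 + D 2 + D 3 + D 4 + D 5 + D 6 + D 7) / 4 = _
      have h0 := hD 0
      have h1 := hD 1
      have h2 := hD 2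
      have h3 := hD 3
      have h4 := hD 4
      have h5 := hD 5
      have h6 := hD 6
      have h7 := hD 7
      omega
    have hc1 : ekC D 1 = 2 * (k 0 + k 1 + k 2 + k 4) +
        ((b 0).toNat + (b 1).toNat + (b 2).toNat + (b 4).toNat) + 2 * e := by
      show (D 0 + D 1 + D 2 + D 4) / 2 = _
      have h0 := hD 0
      have h1 := hD 1
      have h2 := hD 2
      have h4 := hD 4
      omega
    have hc2 : ekC D 2 = 2 * (k 0 + k 1 + k 5 + k 7) +
        ((b 0).toNat + (b 1).toNat + (b 5).toNat + (b 7).toNat) + 2 * e := by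
      show (D 0 + D 1 + D 5 + D 7) / 2 = _
      have h0 := hD 0
      have h1 := hD 1
      have h5 := hD 5
      have h7 := hD 7
      omega
    have hc3 : ekC D 3 = 2 * (k 0 + k 3 + k 4 + k 5) +
        ((b 0).toNat + (b 3).toNat + (b 4).toNat + (b 5).toNat) + 2 * e := by
      show (D 0 + D 3 + D 4 + D 5) / 2 = _
      have h0 := hD 0
      have h3 := hD 3
      have h4 := hD 4
      have h5 := hD 5
      omega
    have hd0 : ekD D 0 = 4 * k 0 + 2 * (b 0).toNat + e := hD 0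
    have hd1 : ekD D 1 = 2 * (k 0 + k 1 + k 2 + k 3) +
        ((b 0).toNat + (b 1).toNat + (b 2).toNat + (b 3).toNat) + 2 * e := by
      show (D 0 + D 1 + D 2 + D 3) / 2 = _
      have h0 := hD 0
      have h1 := hD 1
      have h2 := hD 2
      have h3 := hD 3
      omega
    have hd2 : ekD D 2 = 2 * (k 0 + k 1 + k 5 + k 6) +
        ((b 0).toNat + (b 1).toNat + (b 5).toNat + (b 6).toNat) + 2 * e := by
      show (D 0 + D 1 + D 5 + D 6) / 2 = _
      have h0 := hD 0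
      have h1 := hD 1
      have h5 := hD 5
      have h6 := hD 6
      omega
    have hd3 : ekD D 3 = 2 * (k 0 + k 2 + k 6 + k 7) +
        ((b 0).toNat + (b 2).toNat + (b 6).toNat + (b 7).toNat) + 2 * e := by
      show (D 0 + D 2 + D 6 + D 7) / 2 = _
      have h0 := hD 0
      have h2 := hD 2
      have h6 := hD 6
      have h7 := hD 7
      omega
    have hq : eker_q (ekU D) = ((ekC D 0 * ekD D 0 + ekC D 1 * ekD D 1 + ekC D 2 * ekD D 2 +
        ekC D 3 * ekD D 3 : ℤ) : ZMod 2) := by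
      unfold eker_q eker_dot ekU
      push_cast
      rfl
    rw [hq]
    have hint : ∃ m : ℤ, (2 * R + e * K + t + e * t + e) = (ekC D 0 * ekD D 0 +
        ekC D 1 * ekD D 1 + ekC D 2 * ekD D 2 + ekC D 3 * ekD D 3) + 2 * m := by
      obtain ⟨m0, hm0⟩ := Int.dvd_of_emod_eq_zero hbits
      rw [hc0, hc1, hc2, hc3, hd0, hd1, hd2, hd3, hD 0]
      set x0 : ℤ := ((b 0).toNat : ℤ)
      set x1 : ℤ := ((b 1).toNat : ℤ)
      set x2 : ℤ := ((b 2).toNat : ℤ)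
      set x3 : ℤ := ((b 3).toNat : ℤ)
      set x4 : ℤ := ((b 4).toNat : ℤ)
      set x5 : ℤ := ((b 5).toNat : ℤ)
      set x6 : ℤ := ((b 6).toNat : ℤ)
      set x7 : ℤ := ((b 7).toNat : ℤ)
      set y0 : ℤ := 2 * k 0 + x0 with hy0
      refine ⟨R + m0 - (x0 + x1 + x2 + x4) * (x0 + x1 + x2 + x3) -
        (x0 + x1 + x5 + x7) * (x0 + x1 + x5 + x6) - (x0 + x3 + x4 + x5) * (x0 + x2 + x6 + x7) + e
        - (K + t) * y0 - e - 2 * e * y0 + 2 * y0 ^ 2 + 2 * y0 * e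
        - 2 * ((k 0 + k 1 + k 2 + k 4) + e) * ((k 0 + k 1 + k 2 + k 3) + e)
        - ((k 0 + k 1 + k 2 + k 4) + e) * (x0 + x1 + x2 + x3)
        - ((k 0 + k 1 + k 2 + k 3) + e) * (x0 + x1 + x2 + x4)
        - 2 * ((k 0 + k 1 + k 5 + k 7) + e) * ((k 0 + k 1 + k 5 + k 6) + e)
        - ((k 0 + k 1 + k 5 + k 7) + e) * (x0 + x1 + x5 + x6)
        - ((k 0 + k 1 + k 5 + k 6) + e) * (x0 + x1 + x5 + x7)
        - 2 * ((k 0 + k 3 + k 4 + k 5) + e) * ((k 0 + k 2 + k 6 + k 7) + e)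
        - ((k 0 + k 3 + k 4 + k 5) + e) * (x0 + x2 + x6 + x7)
        - ((k 0 + k 2 + k 6 + k 7) + e) * (x0 + x3 + x4 + x5), ?_⟩
      linear_combination hm0 + (-1) * he2
    obtain ⟨m, hm⟩ := hint
    rw [hm]
    push_cast
    have h2 : (2 : ZMod 2) = 0 := by decide
    rw [h2]
    ring

/-! ### distances -/

theorem eker_big {D : Fin 8 → ℤ} (h : GA D) (hu : ekU D = 0) (h0 : D ≠ 0) :
    32 ≤ ∑ j, D j ^ 2 := by
  have hC : ∀ i, (2 : ℤ) ∣ ekC D i := by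
    intro i
    have h1 : (ekU D).1 i = 0 := by rw [hu]; rfl
    have h2 : ((ekC D i : ℤ) : ZMod 2) = 0 := h1
    exact_mod_cast (ZMod.intCast_zmod_eq_zero_iff_dvd (ekC D i) 2).mp h2
  have hDD : ∀ i, (2 : ℤ) ∣ ekD D i := by
    intro i
    have h1 : (ekU D).2 i = 0 := by rw [hu]; rfl
    have h2 : ((ekD D i : ℤ) : ZMod 2) = 0 := h1
    exact_mod_cast (ZMod.intCast_zmod_eq_zero_iff_dvd (ekD D i) 2).mp h2
  have c0 : (2 : ℤ) ∣ (-3 * D 0 + D 1 + D 2 + D 3 + D 4 + D 5 + D 6 + D 7) / 4 := hC 0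
  have c1 : (2 : ℤ) ∣ (D 0 + D 1 + D 2 + D 4) / 2 := hC 1
  have c2 : (2 : ℤ) ∣ (D 0 + D 1 + D 5 + D 7) / 2 := hC 2
  have c3 : (2 : ℤ) ∣ (D 0 + D 3 + D 4 + D 5) / 2 := hC 3
  have d0 : (2 : ℤ) ∣ D 0 := hDD 0
  have d1 : (2 : ℤ) ∣ (D 0 + D 1 + D 2 + D 3) / 2 := hDD 1
  have d2 : (2 : ℤ) ∣ (D 0 + D 1 + D 5 + D 6) / 2 := hDD 2
  have d3 : (2 : ℤ) ∣ (D 0 + D 2 + D 6 + D 7) / 2 := hDD 3
  rw [eker_GA_iff] at h
  have key : (∀ j, D j % 4 = 2) ∨ ((∀ j, D j % 4 = 0) ∧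
      (D 0 + D 1 + D 2 + D 3 + D 4 + D 5 + D 6 + D 7) % 8 = 0) := by
    obtain ⟨hp | hp, hs4⟩ := h
    swap
    · exfalso; omega
    obtain ⟨p0, p1, p2, p3, p4, p5, p6, p7⟩ := hp
    obtain ⟨B0, hB0⟩ := Int.dvd_of_emod_eq_zero p0
    obtain ⟨B1, hB1⟩ := Int.dvd_of_emod_eq_zero p1
    obtain ⟨B2, hB2⟩ := Int.dvd_of_emod_eq_zero p2
    obtain ⟨B3, hB3⟩ := Int.dvd_of_emod_eq_zero p3
    obtain ⟨B4, hB4⟩ := Int.dvd_of_emod_eq_zero p4
    obtain ⟨B5, hB5⟩ := Int.dvd_of_emod_eq_zero p5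
    obtain ⟨B6, hB6⟩ := Int.dvd_of_emod_eq_zero p6
    obtain ⟨B7, hB7⟩ := Int.dvd_of_emod_eq_zero p7
    have q1 : (B0 + B1 + B2 + B4) % 2 = 0 := by
      clear c0 c2 c3 d0 d1 d2 d3 hs4 p0 p1 p2 p3 p4 p5 p6 p7 hB3 hB5 hB6 hB7
      omega
    have q2 : (B0 + B1 + B5 + B7) % 2 = 0 := by
      clear c0 c1 c3 d0 d1 d2 d3 hs4 p0 p1 p2 p3 p4 p5 p6 p7 hB2 hB3 hB4 hB6
      omega
    have q3 : (B0 + B3 + B4 + B5) % 2 = 0 := by
      clear c0 c1 c2 d0 d1 d2 d3 hs4 p0 p1 p2 p3 p4 p5 p6 p7 hB1 hB2 hB6 hB7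
      omega
    have r1 : (B0 + B1 + B2 + B3) % 2 = 0 := by
      clear c0 c1 c2 c3 d0 d2 d3 hs4 p0 p1 p2 p3 p4 p5 p6 p7 hB4 hB5 hB6 hB7
      omega
    have r2 : (B0 + B1 + B5 + B6) % 2 = 0 := by
      clear c0 c1 c2 c3 d0 d1 d3 hs4 p0 p1 p2 p3 p4 p5 p6 p7 hB2 hB3 hB4 hB7
      omega
    have r3 : (B0 + B2 + B6 + B7) % 2 = 0 := by
      clear c0 c1 c2 c3 d0 d1 d2 hs4 p0 p1 p2 p3 p4 p5 p6 p7 hB1 hB3 hB4 hB5
      omega
    have q0 : (B0 + B1 + B2 + B3 + B4 + B5 + B6 + B7) % 4 = 0 := by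
      clear c1 c2 c3 d0 d1 d2 d3 p0 p1 p2 p3 p4 p5 p6 p7 q1 q2 q3 r1 r2 r3
      omega
    clear c0 c1 c2 c3 d0 d1 d2 d3 hs4 p0 p1 p2 p3 p4 p5 p6 p7
    have s34 : (B3 - B4) % 2 = 0 := by clear q2 q3 r2 r3 q0; omega
    have s67 : (B6 - B7) % 2 = 0 := by clear q1 q3 r1 r3 q0; omega
    have s02 : (B0 - B2) % 2 = 0 := by clear q1 q2 q3 r1 r2 q0; omega
    have s05 : (B0 - B5) % 2 = 0 := by clear q1 q2 r1 r2 r3 q0; omega
    have s16 : (B1 - B6) % 2 = 0 := by clear q1 q2 q3 r1 r3 q0; omega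
    have s13 : (B1 - B3) % 2 = 0 := by clear q1 q2 q3 r2 r3 q0; omega
    have s01 : (B0 - B1) % 2 = 0 := by clear q1 q2 q3 r1 r2 r3; omega
    clear q1 q2 q3 r1 r2 r3
    rcases Int.emod_two_eq_zero_or_one B0 with hB | hB
    · right
      have b1 := eker_o10 s01 hB
      have b2 := eker_o10 s02 hB
      have b5 := eker_o10 s05 hB
      have b6 := eker_o10 s16 b1
      have b3 := eker_o10 s13 b1
      have b4 := eker_o10 s34 b3
      have b7 := eker_o10 s67 b6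
      have a0 : D 0 % 4 = 0 := eker_o9 hB0 hB
      have a1 : D 1 % 4 = 0 := eker_o9 hB1 b1
      have a2 : D 2 % 4 = 0 := eker_o9 hB2 b2
      have a3 : D 3 % 4 = 0 := eker_o9 hB3 b3
      have a4 : D 4 % 4 = 0 := eker_o9 hB4 b4
      have a5 : D 5 % 4 = 0 := eker_o9 hB5 b5
      have a6 : D 6 % 4 = 0 := eker_o9 hB6 b6
      have a7 : D 7 % 4 = 0 := eker_o9 hB7 b7
      refine ⟨fun j => ?_, ?_⟩
      · fin_cases j <;> assumption
      · rw [hB0, hB1, hB2, hB3, hB4, hB5, hB6, hB7]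
        clear s34 s67 s02 s05 s16 s13 s01 a0 a1 a2 a3 a4 a5 a6 a7 b1 b2 b3 b4 b5 b6 b7
        clear hB0 hB1 hB2 hB3 hB4 hB5 hB6 hB7
        omega
    · left
      have b1 := eker_o10 s01 hB
      have b2 := eker_o10 s02 hB
      have b5 := eker_o10 s05 hB
      have b6 := eker_o10 s16 b1
      have b3 := eker_o10 s13 b1
      have b4 := eker_o10 s34 b3
      have b7 := eker_o10 s67 b6
      have a0 : D 0 % 4 = 2 := eker_o9' hB0 hB
      have a1 : D 1 % 4 = 2 := eker_o9' hB1 b1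
      have a2 : D 2 % 4 = 2 := eker_o9' hB2 b2
      have a3 : D 3 % 4 = 2 := eker_o9' hB3 b3
      have a4 : D 4 % 4 = 2 := eker_o9' hB4 b4
      have a5 : D 5 % 4 = 2 := eker_o9' hB5 b5
      have a6 : D 6 % 4 = 2 := eker_o9' hB6 b6
      have a7 : D 7 % 4 = 2 := eker_o9' hB7 b7
      intro j
      fin_cases j <;> assumption
  rcases key with hk | ⟨hk, hs⟩
  · have h4 : ∀ j, 4 ≤ D j ^ 2 := by
      intro j
      have := hk j
      have h5 : 2 ≤ D j ∨ D j ≤ -2 := by omega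
      rcases h5 with h5 | h5 <;> nlinarith
    calc (32 : ℤ) = ∑ _j : Fin 8, (4 : ℤ) := by simp
      _ ≤ ∑ j, D j ^ 2 := Finset.sum_le_sum fun j _ => h4 j
  · obtain ⟨i, hi⟩ : ∃ i, D i ≠ 0 := by
      by_contra hne
      push Not at hne
      exact h0 (funext hne)
    choose E hE using fun j => Int.dvd_of_emod_eq_zero (hk j)
    have hp : ∀ j, ∃ m : ℤ, E j ^ 2 = E j + 2 * m := by
      intro j
      obtain ⟨m, hm⟩ := Int.even_mul_pred_self (E j)
      exact ⟨m, by linear_combination hm⟩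
    choose m hm using hp
    have hEsum : ∃ n : ℤ, ∑ j, E j = 2 * n := by
      rw [Fin.sum_univ_eight]
      have e0 := hE 0
      have e1 := hE 1
      have e2 := hE 2
      have e3 := hE 3
      have e4 := hE 4
      have e5 := hE 5
      have e6 := hE 6
      have e7 := hE 7
      have : (E 0 + E 1 + E 2 + E 3 + E 4 + E 5 + E 6 + E 7) % 2 = 0 := by omega
      obtain ⟨n, hn⟩ := Int.dvd_of_emod_eq_zero this
      exact ⟨n, hn⟩
    obtain ⟨n, hn⟩ := hEsum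
    have hsum : ∑ j, E j ^ 2 = 2 * (n + ∑ j, m j) := by
      simp only [hm]
      rw [Finset.sum_add_distrib, hn, ← Finset.mul_sum]
      ring
    have hpos : 0 < ∑ j, E j ^ 2 := by
      have hEi : E i ≠ 0 := by
        intro h
        apply hi
        rw [hE i, h]; ring
      have h1 : 0 < E i ^ 2 := by positivity
      exact lt_of_lt_of_le h1
        (Finset.single_le_sum (f := fun j => E j ^ 2) (fun j _ => sq_nonneg _) (Finset.mem_univ i))
    have h2 : 2 ≤ ∑ j, E j ^ 2 := by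
      rw [hsum] at hpos ⊢
      omega
    have h3 : ∑ j, D j ^ 2 = 16 * ∑ j, E j ^ 2 := by
      rw [Finset.mul_sum]
      refine Finset.sum_congr rfl fun j _ => ?_
      rw [hE j]; ring
    rw [h3]
    linarith

theorem eker_var {ι : Type*} (S : Finset ι) (g : ι → ℝ) :
    ∑ A ∈ S, ∑ B ∈ S, (g A - g B) ^ 2 ≤ 2 * (S.card : ℝ) * ∑ A ∈ S, g A ^ 2 := by
  have h : ∑ A ∈ S, ∑ B ∈ S, (g A - g B) ^ 2 =
      2 * (S.card : ℝ) * (∑ A ∈ S, g A ^ 2) - 2 * (∑ A ∈ S, g A) ^ 2 := by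
    have h1 : ∀ A ∈ S, ∑ B ∈ S, (g A - g B) ^ 2 =
        (S.card : ℝ) * g A ^ 2 + ∑ B ∈ S, g B ^ 2 - 2 * (g A * ∑ B ∈ S, g B) := by
      intro A _
      have h2 : ∀ B ∈ S, (g A - g B) ^ 2 = g A ^ 2 + g B ^ 2 - 2 * (g A * g B) :=
        fun B _ => by ring
      rw [Finset.sum_congr rfl h2, Finset.sum_sub_distrib, Finset.sum_add_distrib,
        Finset.sum_const, nsmul_eq_mul, ← Finset.mul_sum, ← Finset.mul_sum]
    rw [Finset.sum_congr rfl h1, Finset.sum_sub_distrib, Finset.sum_add_distrib,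
      Finset.sum_const, nsmul_eq_mul, ← Finset.mul_sum, ← Finset.mul_sum, ← Finset.sum_mul]
    ring
  rw [h]
  have := sq_nonneg (∑ A ∈ S, g A)
  linarith

theorem eker_sq8 (z : Fin 8 → ℝ) (A B : Fin 8 → ℤ) :
    (∑ j, ((A - B) j : ℝ) ^ 2) ≤ 8 * (sq8 z A + sq8 z B) := by
  unfold sq8
  rw [← Finset.sum_add_distrib, Finset.mul_sum]
  refine Finset.sum_le_sum fun j _ => ?_
  rw [Pi.sub_apply]
  push_cast
  nlinarith [sq_nonneg ((z j - (A j : ℝ) / 2) + (z j - (B j : ℝ) / 2))]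

theorem eker_all (z : Fin 8 → ℝ) (S : Finset (Fin 8 → ℤ)) :
    ∑ A ∈ S, ∑ B ∈ S, ∑ j, ((A - B) j : ℝ) ^ 2 ≤ 8 * (S.card : ℝ) * ∑ A ∈ S, sq8 z A := by
  have h1 : ∑ A ∈ S, ∑ B ∈ S, ∑ j, ((A - B) j : ℝ) ^ 2 =
      ∑ j : Fin 8, 4 * ∑ A ∈ S, ∑ B ∈ S, ((z j - (A j : ℝ) / 2) - (z j - (B j : ℝ) / 2)) ^ 2 := by
    have h2 : ∀ A ∈ S, ∑ B ∈ S, ∑ j, ((A - B) j : ℝ) ^ 2 =
        ∑ j, ∑ B ∈ S, ((A - B) j : ℝ) ^ 2 := fun A _ => Finset.sum_comm
    rw [Finset.sum_congr rfl h2, Finset.sum_comm]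
    refine Finset.sum_congr rfl fun j _ => ?_
    rw [Finset.mul_sum]
    refine Finset.sum_congr rfl fun A _ => ?_
    rw [Finset.mul_sum]
    refine Finset.sum_congr rfl fun B _ => ?_
    rw [Pi.sub_apply]
    push_cast
    ring
  rw [h1]
  have h3 : ∑ A ∈ S, sq8 z A = ∑ j : Fin 8, ∑ A ∈ S, (z j - (A j : ℝ) / 2) ^ 2 := by
    unfold sq8
    rw [Finset.sum_comm]
  rw [h3, Finset.mul_sum]
  refine Finset.sum_le_sum fun j _ => ?_
  have := eker_var S (fun A : Fin 8 → ℤ => z j - (A j : ℝ) / 2)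
  linarith

theorem eker_pair {z : Fin 8 → ℝ} {A B : Fin 8 → ℤ} (hA : GA A) (hB : GA B) (hne : A ≠ B)
    {β : ℝ} (hβ : β ≤ 25 / 16) (h1 : sq8 z A < β) (h2 : sq8 z B < β) :
    ekU A ≠ ekU B ∧ (8 : ℝ) ≤ ∑ j, ((A - B) j : ℝ) ^ 2 ∧
      4 * (3 + (eker_sg (eker_q (ekU A - ekU B)) : ℝ)) ≤ ∑ j, ((A - B) j : ℝ) ^ 2 := by
  have hD : GA (A - B) := eker_GA_sub hA hB
  have hD0 : A - B ≠ 0 := sub_ne_zero.mpr hne
  obtain ⟨Q, hQ, hQ2⟩ := eker_form hD
  have hcast : (∑ j, ((A - B) j : ℝ) ^ 2) = 8 * (Q : ℝ) := by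
    have h1 : (((∑ j, (A - B) j ^ 2 : ℤ)) : ℝ) = ((8 * Q : ℤ) : ℝ) := by rw [hQ]
    rw [Int.cast_sum, Int.cast_mul] at h1
    simp only [Int.cast_pow] at h1
    rw [h1]
    norm_num
  have hle := eker_sq8 z A B
  rw [hcast] at hle
  have hQ3 : Q < 4 := by
    have : (Q : ℝ) < 4 := by linarith
    exact_mod_cast this
  have hQ1 : 0 < Q := by
    have : 0 < ∑ j, (A - B) j ^ 2 := by
      obtain ⟨i, hi⟩ : ∃ i, (A - B) i ≠ 0 := by
        by_contra hne
        push Not at hne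
        exact hD0 (funext hne)
      have h1 : 0 < (A - B) i ^ 2 := by positivity
      exact lt_of_lt_of_le h1 (Finset.single_le_sum (f := fun j => (A - B) j ^ 2)
        (fun j _ => sq_nonneg _) (Finset.mem_univ i))
    omega
  refine ⟨?_, ?_, ?_⟩
  · intro h
    have hz : ekU (A - B) = 0 := by rw [eker_U_sub hA hB, h, sub_self]
    have := eker_big hD hz hD0
    omega
  · rw [hcast]
    have : (1 : ℝ) ≤ Q := by exact_mod_cast hQ1
    linarith
  · rw [hcast, ← eker_U_sub hA hB, ← hQ2]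
    have h3 : Q = 1 ∨ Q = 2 ∨ Q = 3 := by omega
    have e1 : eker_sg ((1 : ℤ) : ZMod 2) = -1 := by decide
    have e2 : eker_sg ((2 : ℤ) : ZMod 2) = 1 := by decide
    have e3 : eker_sg ((3 : ℤ) : ZMod 2) = -1 := by decide
    rcases h3 with rfl | rfl | rfl
    · rw [e1]; norm_num
    · rw [e2]; norm_num
    · rw [e3]; norm_num

theorem st_EKER : ST_EKER := by
  intro z S hS β hβ1 hβ2
  set T := S.filter (fun A => sq8 z A < β) with hT
  have hTS : ∀ A ∈ T, GA A ∧ sq8 z A < β := by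
    intro A hA
    rw [hT, Finset.mem_filter] at hA
    exact ⟨hS A hA.1, hA.2⟩
  have hsum : ∑ A ∈ S, max 0 (β - sq8 z A) = (T.card : ℝ) * β - ∑ A ∈ T, sq8 z A := by
    have h1 : ∑ A ∈ S, max 0 (β - sq8 z A) = ∑ A ∈ T, (β - sq8 z A) := by
      rw [hT, Finset.sum_filter]
      refine Finset.sum_congr rfl fun A _ => ?_
      by_cases h : sq8 z A < β
      · rw [if_pos h, max_eq_right (by linarith)]
      · rw [if_neg h, max_eq_left (by linarith)]
    rw [h1, Finset.sum_sub_distrib, Finset.sum_const, nsmul_eq_mul]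
  rw [hsum]
  set k : ℝ := (T.card : ℝ) with hk
  have hk0 : 0 ≤ k := by rw [hk]; positivity
  rcases Nat.eq_zero_or_pos T.card with h0 | hpos
  · have : T = ∅ := Finset.card_eq_zero.mp h0
    rw [hk, this]
    simp
    linarith
  have hk1 : 1 ≤ k := by rw [hk]; exact_mod_cast hpos
  have hall := eker_all z T
  rw [← hk] at hall
  -- first bound
  have hA1 : 8 * (k ^ 2 - k) ≤ ∑ A ∈ T, ∑ B ∈ T, ∑ j, ((A - B) j : ℝ) ^ 2 := by
    have h1 : ∀ A ∈ T, 8 * (k - 1) ≤ ∑ B ∈ T, ∑ j, ((A - B) j : ℝ) ^ 2 := by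
      intro A hA
      have h2 : ∑ B ∈ T, (8 - if A = B then (8 : ℝ) else 0) ≤
          ∑ B ∈ T, ∑ j, ((A - B) j : ℝ) ^ 2 := by
        refine Finset.sum_le_sum fun B hB => ?_
        by_cases hAB : A = B
        · rw [if_pos hAB]
          have : (0 : ℝ) ≤ ∑ j, ((A - B) j : ℝ) ^ 2 := Finset.sum_nonneg fun j _ => sq_nonneg _
          linarith
        · rw [if_neg hAB]
          have := (eker_pair (hTS A hA).1 (hTS B hB).1 hAB hβ2 (hTS A hA).2 (hTS B hB).2).2.1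
          linarith
      rw [Finset.sum_sub_distrib, Finset.sum_const, nsmul_eq_mul, Finset.sum_ite_eq, if_pos hA,
        ← hk] at h2
      linarith
    have h3 := Finset.sum_le_sum h1
    rw [Finset.sum_const, nsmul_eq_mul, ← hk] at h3
    refine le_trans (le_of_eq ?_) h3
    ring
  -- second bound
  have hA2 : 4 * (3 * k ^ 2 - 4 * k) +
      4 * ((∑ x ∈ T.image ekU, ∑ y ∈ T.image ekU, eker_sg (eker_q (x - y)) : ℤ) : ℝ) ≤
      ∑ A ∈ T, ∑ B ∈ T, ∑ j, ((A - B) j : ℝ) ^ 2 := by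
    have hinj : Set.InjOn ekU (T : Set (Fin 8 → ℤ)) := by
      intro A hA B hB hAB
      by_contra hne
      have hA' : A ∈ T := hA
      have hB' : B ∈ T := hB
      exact (eker_pair (hTS A hA').1 (hTS B hB').1 hne hβ2 (hTS A hA').2 (hTS B hB').2).1 hAB
    rw [Finset.sum_image hinj]
    have h0 : ∀ A ∈ T, ∑ y ∈ T.image ekU, eker_sg (eker_q (ekU A - y)) =
        ∑ B ∈ T, eker_sg (eker_q (ekU A - ekU B)) := fun A _ => Finset.sum_image hinj
    rw [Finset.sum_congr rfl h0]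
    push_cast
    have h1 : ∀ A ∈ T, 4 * (3 * k - 4) + 4 * ∑ B ∈ T, (eker_sg (eker_q (ekU A - ekU B)) : ℝ) ≤
        ∑ B ∈ T, ∑ j, ((A - B) j : ℝ) ^ 2 := by
      intro A hA
      have h2 : ∑ B ∈ T, (4 * (3 + (eker_sg (eker_q (ekU A - ekU B)) : ℝ)) -
          if A = B then (16 : ℝ) else 0) ≤ ∑ B ∈ T, ∑ j, ((A - B) j : ℝ) ^ 2 := by
        refine Finset.sum_le_sum fun B hB => ?_
        by_cases hAB : A = B
        · rw [if_pos hAB, hAB, sub_self]
          have : (0 : ℝ) ≤ ∑ j, ((B - B) j : ℝ) ^ 2 := Finset.sum_nonneg fun j _ => sq_nonneg _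
          have e0 : eker_sg (eker_q (0 : EkV × EkV)) = 1 := by decide
          rw [sub_self] at this
          rw [e0, sub_self]
          push_cast
          linarith
        · rw [if_neg hAB]
          have := (eker_pair (hTS A hA).1 (hTS B hB).1 hAB hβ2 (hTS A hA).2 (hTS B hB).2).2.2
          linarith
      rw [Finset.sum_sub_distrib, ← Finset.mul_sum, Finset.sum_add_distrib, Finset.sum_const,
        nsmul_eq_mul, Finset.sum_ite_eq, if_pos hA, ← hk] at h2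
      linarith
    have h3 := Finset.sum_le_sum h1
    rw [Finset.sum_add_distrib, Finset.sum_const, nsmul_eq_mul, ← hk, ← Finset.mul_sum] at h3
    refine le_trans (le_of_eq ?_) h3
    ring
  have hinj : Set.InjOn ekU (T : Set (Fin 8 → ℤ)) := by
    intro A hA B hB hAB
    by_contra hne
    have hA' : A ∈ T := hA
    have hB' : B ∈ T := hB
    exact (eker_pair (hTS A hA').1 (hTS B hB').1 hne hβ2 (hTS A hA').2 (hTS B hB').2).1 hAB
  have hcard : (T.image ekU).card = T.card := Finset.card_image_of_injOn hinj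
  have hsg := eker_signs (T.image ekU)
  rw [hcard] at hsg
  have hsg' : k ^ 2 - 128 * k ≤
      8 * ((∑ x ∈ T.image ekU, ∑ y ∈ T.image ekU, eker_sg (eker_q (x - y)) : ℤ) : ℝ) := by
    rw [hk]
    exact_mod_cast hsg
  have hd1 : k - 1 ≤ ∑ A ∈ T, sq8 z A := by
    have h1 : 8 * (k ^ 2 - k) ≤ 8 * k * ∑ A ∈ T, sq8 z A := le_trans hA1 hall
    have h2 : k * (k - 1) ≤ k * ∑ A ∈ T, sq8 z A := by nlinarith
    exact le_of_mul_le_mul_left h2 (by linarith)
  have hd2 : 25 / 16 * k - 10 ≤ ∑ A ∈ T, sq8 z A := by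
    have h1 := le_trans hA2 hall
    have h2 : k * (25 / 16 * k - 10) ≤ k * ∑ A ∈ T, sq8 z A := by nlinarith
    exact le_of_mul_le_mul_left h2 (by linarith)
  rcases le_total k 16 with h16 | h16
  · nlinarith
  · nlinarith

end Pool.Agent.Helper19.Un
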